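import Mathlib
import Pool.Agent.Q159.ZeckParity

/-!
The `N`th maximum order complexity of the Zeckendorf parity sequence is not asymptotic to
`N / (1 + φ ^ 2)`: it is at most `N / 4` for infinitely many `N`, while
`1 / (1 + φ ^ 2) = 0.27639...`.
-/

set_option autoImplicit false

namespace Pool.Agent.Results.MP_b74c76_co.NotAsymptotic

/-- The Zeckendorf parity sequence: `Nat.zeckendorf n` is the list of the indices of the Fibonacci
numbers in the Zeckendorf representation of `n`, so its length is `s_Z(n)`. -/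
def zeckParity (n : ℕ) : Bool := decide ((Nat.zeckendorf n).length % 2 = 1)

/-- The `N`th maximum order complexity of a binary sequence `S`: the least `k ≥ 0` for which some
function `f` of `k` bits satisfies `S (i + k) = f (S i, ..., S (i + k - 1))` for all `i` with
`i ≤ N - k - 1`, that is `i + k < N`. -/
noncomputable def maxOrderComplexity (S : ℕ → Bool) (N : ℕ) : ℕ :=
  sInf {k : ℕ | ∃ f : (Fin k → Bool) → Bool,
    ∀ i : ℕ, i + k < N → S (i + k) = f (fun t : Fin k => S (i + t))}

/-- If all repeated blocks inside the first `N` terms with different successors are shorter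
than `k`, then the complexity is at most `k`. -/
theorem complexity_le {S : ℕ → Bool} {N k : ℕ}
    (h : ∀ i j, i < j → j + k < N → (∀ x < k, S (i + x) = S (j + x)) → S (i + k) = S (j + k)) :
    maxOrderComplexity S N ≤ k := by
  classical
  apply Nat.sInf_le
  refine ⟨fun w => if hw : ∃ i, i + k < N ∧ ∀ x : Fin k, S (i + x) = w x then
    S (hw.choose + k) else false, ?_⟩
  intro i hi
  have hw : ∃ i', i' + k < N ∧ ∀ x : Fin k, S (i' + x) = S (i + x) :=
    ⟨i, hi, fun x => rfl⟩
  dsimp only
  rw [dif_pos hw]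
  have hs := hw.choose_spec
  generalize hw.choose = i' at hs
  obtain ⟨h1, h2⟩ := hs
  have h3 : ∀ x < k, S (i' + x) = S (i + x) := fun x hx => h2 ⟨x, hx⟩
  rcases lt_trichotomy i i' with c | c | c
  · exact h i i' c h1 (fun x hx => (h3 x hx).symm)
  · rw [c]
  · exact (h i' i c hi h3).symm

theorem frequently_le (N₀ : ℕ) : ∃ N ≥ N₀, 4 * maxOrderComplexity zeckParity N ≤ N := by
  have hφ := Real.one_lt_goldenRatio
  have hsq := Real.goldenRatio_sq
  have hsum := Real.goldenRatio_add_goldenConj
  have hφ2 : Real.goldenRatio < 1.6181 := by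
    unfold Real.goldenRatio
    have : √5 < 2.2362 := by
      rw [Real.sqrt_lt' (by norm_num)]; norm_num
    linarith
  obtain ⟨t, ht⟩ : ∃ t : ℕ, (N₀ : ℝ) + 20 < Real.goldenRatio ^ t :=
    pow_unbounded_of_one_lt _ hφ
  have hlow := Q159.ZeckParity.NN_lower t
  have hpow : (20 : ℝ) < Real.goldenRatio ^ t := by
    have : (0 : ℝ) ≤ N₀ := Nat.cast_nonneg _
    linarith
  refine ⟨Q159.ZeckParity.NN t, ?_, ?_⟩
  · have : (N₀ : ℝ) ≤ (Q159.ZeckParity.NN t : ℝ) := by
      have h0 : (0 : ℝ) ≤ N₀ := Nat.cast_nonneg _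
      nlinarith
    exact_mod_cast this
  · -- the bound for the repeated blocks
    obtain ⟨k, hk1, hk2⟩ : ∃ k : ℕ,
        Real.goldenRatio ^ t * (8 + 2 * Real.goldenRatio) + 4 < (k : ℝ) + 2 * Real.goldenRatio ∧
        (k : ℝ) ≤ Real.goldenRatio ^ t * (8 + 2 * Real.goldenRatio) + 5 := by
      refine ⟨⌊Real.goldenRatio ^ t * (8 + 2 * Real.goldenRatio) + 4⌋₊ + 1, ?_, ?_⟩
      · have := Nat.lt_floor_add_one (Real.goldenRatio ^ t * (8 + 2 * Real.goldenRatio) + 4)
        push_cast
        linarith
      · have := Nat.floor_le (a := Real.goldenRatio ^ t * (8 + 2 * Real.goldenRatio) + 4)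
          (by positivity)
        push_cast
        linarith
    have hM : maxOrderComplexity zeckParity (Q159.ZeckParity.NN t) ≤ k := by
      apply complexity_le
      intro i j hij hjk heq
      by_contra hne
      have := Q159.ZeckParity.S_upper t i j k hij heq hne hjk
      linarith
    have : (4 : ℝ) * maxOrderComplexity zeckParity (Q159.ZeckParity.NN t) ≤
        (Q159.ZeckParity.NN t : ℝ) := by
      have hM' : (maxOrderComplexity zeckParity (Q159.ZeckParity.NN t) : ℝ) ≤ k := by
        exact_mod_cast hM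
      nlinarith
    exact_mod_cast this

/-- `M(S_Z, N) ≤ N / 4` for infinitely many `N`, so `M(S_Z, N) / N` does not converge to
`1 / (1 + φ ^ 2) = 0.27639...`. -/
theorem result :
    (∀ N₀ : ℕ, ∃ N ≥ N₀, 4 * maxOrderComplexity zeckParity N ≤ N) ∧
    ¬ Filter.Tendsto (fun N : ℕ => (maxOrderComplexity zeckParity N : ℝ) / N)
        Filter.atTop (nhds (1 / (1 + Real.goldenRatio ^ 2))) := by
  refine ⟨frequently_le, ?_⟩
  intro hlim
  have hφ := Real.one_lt_goldenRatio
  have hφ2 : Real.goldenRatio < 1.7 := by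
    unfold Real.goldenRatio
    have : √5 < 2.4 := by
      rw [Real.sqrt_lt' (by norm_num)]; norm_num
    linarith
  have hgt : (1 : ℝ) / 4 < 1 / (1 + Real.goldenRatio ^ 2) := by
    rw [Real.goldenRatio_sq]
    apply one_div_lt_one_div_of_lt <;> linarith
  have hev := hlim.eventually (lt_mem_nhds hgt)
  rw [Filter.eventually_atTop] at hev
  obtain ⟨N₀, hN₀⟩ := hev
  obtain ⟨N, hN, h4⟩ := frequently_le (N₀ + 1)
  have h1 := hN₀ N (by omega)
  have hNpos : (0 : ℝ) < N := by
    have : 0 < N := by omega
    exact_mod_cast this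
  rw [lt_div_iff₀ hNpos] at h1
  have h4' : (4 : ℝ) * maxOrderComplexity zeckParity N ≤ N := by exact_mod_cast h4
  linarith

end Pool.Agent.Results.MP_b74c76_co.NotAsymptotic
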